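import Pool.Agent.Lib.UPE.FIN2
import Pool.Agent.Lib.UPE.SEq

/-!
# MP_b7fcbd_an: amplifications of a II_1 factor in its ultrapower are all or nothing

`M` is a II_1 factor, separable in the norm `n2 ξ`, with the trace `tr ξ`.  All embeddings into ultrapowers are given by
sequences (`IsMat`, `IsCC`, `IsCS`).  The seven conditions: `M_2(M)` embeds in the ultrapower of `M` (this is Q1 for `M`); all
`M_n(M)` do; some `p M p` embeds in the ultrapower of a smaller corner `q M q`; every non-zero corner embeds in the
ultrapower of every other one; some embedding of `M` in its ultrapower has a non-scalar relative commutant; the closures of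
the sets of laws of tuples of contractions are convex; some *-homomorphism from `M` to its ultrapower does not map 1 to
0 or 1.
-/

set_option autoImplicit false

open Filter Topology Pool.Agent.Lib.UPE

namespace Pool.Agent.Results.MP_b7fcbd_an.AmplificationDichotomy

theorem result {H : Type*} [NormedAddCommGroup H] [InnerProductSpace ℂ H] [CompleteSpace H]
    (M : VonNeumannAlgebra H) (ξ : ℕ → H) (h : IsIIOne M ξ) (hsep : Sep M ξ) :
    List.TFAE [SomeMat M ξ, AllMat M ξ, SomeCC M ξ, AllCC M ξ, SomeComm M ξ, ConvLaws M ξ, SomeHom M ξ] := by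
  have h1 : SomeMat M ξ ↔ ∃ U : Ultrafilter ℕ, (U : Filter ℕ) ≤ cofinite ∧ MatEmb M ξ U 2 :=
    exists_congr fun U => and_congr_right fun _ => matE_iff
  have h2 : AllMat M ξ ↔
      ∀ U : Ultrafilter ℕ, (U : Filter ℕ) ≤ cofinite → ∀ n : ℕ, 1 ≤ n → MatEmb M ξ U n :=
    forall_congr' fun U => imp_congr_right fun _ => forall_congr' fun n => imp_congr_right fun _ => matE_iff
  rw [h1, h2, someComm_iff, someHom_iff]
  exact main2 h hsep

end Pool.Agent.Results.MP_b7fcbd_an.AmplificationDichotomy
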