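import Pool.Agent.Lib.UPE.FIN4
import Pool.Agent.Lib.UPE.SEq

/-!
# MP_b7fcbd: stable invariance of the embeddability of the 2 by 2 amplification in the ultrapower

Let `M` and `N` be II_1 factors (acting on possibly different Hilbert spaces), `M` separable in the
2-norm. Suppose that some corner `p M p` has a non-zero *-homomorphism to an ultrapower of `N`, and
some corner `q N q` has a non-zero *-homomorphism to an ultrapower of `M` (`Below M N η` and
`Below N M ξ`). If the 2 by 2 matrices over `N` embed in an ultrapower of `N`, then the `n` by `n`
matrices over `M` embed in the ultrapower of `M` along every non-principal ultrafilter, for all `n`.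

Idea: the set of all `s` such that the laws of tuples of `N`, multiplied by `s`, can be approximated
in `N` is closed, closed under products and under sums which are at most `1`, so it is `[0, 1]` as
soon as it contains a number in `(0, 1)`. A *-homomorphism on a corner multiplies the trace by a
constant, so the laws of `p M p` multiplied by some `c > 0` can be approximated in `N`, then
(multiplied by a small `r`) in `q N q`, and then (multiplied by `d`) in `M`; matrix units pass from
`p M p` to `M`. So `c * r * d` is a scale of `M`, and it is in `(0, 1)`.
-/

namespace Pool.Agent.Results.MP_b7fcbd_an.StableInvariance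

open Filter Topology Pool.Agent.Lib.UPE

/-- **Main theorem.** Let `M` and `N` be II_1 factors with traces `tr ξ` and `tr η`, `M` separable in
the 2-norm. Suppose that some corner of `M` has a non-zero *-homomorphism to an ultrapower of `N`,
and some corner of `N` has a non-zero *-homomorphism to an ultrapower of `M` (not necessarily unital,
no condition on the traces, principal ultrafilters allowed). If the 2 by 2 matrices over `N` embed
in an ultrapower of `N`, then for every non-principal ultrafilter `U` on the natural numbers and
every `n ≥ 1` the `n` by `n` matrices over `M` embed in the ultrapower of `M` along `U`. -/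
theorem result {H : Type*} [NormedAddCommGroup H] [InnerProductSpace ℂ H] [CompleteSpace H]
    {K : Type*} [NormedAddCommGroup K] [InnerProductSpace ℂ K] [CompleteSpace K]
    (M : VonNeumannAlgebra H) (ξ : ℕ → H) (N : VonNeumannAlgebra K) (η : ℕ → K)
    (h : IsIIOne M ξ) (hsep : Sep M ξ) (hN : IsIIOne N η)
    (h1 : Below M N η) (h2 : Below N M ξ)
    (hV : ∃ V : Ultrafilter ℕ, MatE N η V 2) : AllMat M ξ := by
  obtain ⟨V, hV⟩ := hV
  exact fun U hU n hn => matE_iff.2 (main_inv h hsep hN h1 h2 (matE_iff.1 hV) hU hn)

end Pool.Agent.Results.MP_b7fcbd_an.StableInvariance
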